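import Pool.Agent.Helper35.MU.FrbSpl
import Pool.Agent.Helper74.ZL.SIE
import Pool.Agent.Helper85.MU.Stmts

/-!
# FRB: every coset of an open normal subgroup contains a power of a Frobenius element
-/

set_option autoImplicit false

open scoped Classical Pointwise

namespace MU

open IsDedekindDomain NumberField Pool.Agent.Helper13.ZL AbMot Topology

/-- A set of places of positive density is infinite. -/
lemma frb_exists {k : Type} [Field k] [NumberField k] (V : Set (Pl k)) (m : ℝ) (hm : 0 < m)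
    (h : HasMean (frb_ind V) m) (T : Set (Pl k))
    (hT : T.Finite) : ∃ v ∈ V, v ∉ T := by
  by_contra hcon
  push Not at hcon
  obtain ⟨C, hC⟩ := h
  have hC0 : 0 ≤ C := (abs_nonneg _).trans (hC 2 (by norm_num) le_rfl).2
  have hb : ∀ s : ℝ, 1 < s → s ≤ 2 →
      (∑' v : Pl k, frb_ind V v * (q v : ℝ) ^ (-s)) ≤
        (hT.toFinset.card : ℝ) := by
    intro s hs _
    rw [tsum_eq_sum (s := hT.toFinset)]
    · have h1 : ∀ v ∈ hT.toFinset, frb_ind V v * (q v : ℝ) ^ (-s) ≤ 1 := by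
        intro v _
        unfold frb_ind
        have hq2 := spl_q_ge_two v
        have hq : (1 : ℝ) ≤ (q v : ℝ) := by exact_mod_cast (by omega : 1 ≤ q v)
        have hps1 : (q v : ℝ) ^ (-s) ≤ 1 :=
          Real.rpow_le_one_of_one_le_of_nonpos hq (by linarith)
        split_ifs
        · rw [one_mul]
          exact hps1
        · rw [zero_mul]
          exact zero_le_one
      have h2 := Finset.sum_le_card_nsmul hT.toFinset _ 1 h1
      rw [nsmul_eq_mul, mul_one] at h2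
      exact h2
    · intro v hv
      rw [Set.Finite.mem_toFinset] at hv
      unfold frb_ind
      rw [if_neg fun hV => hv (hcon v hV), zero_mul]
  set M : ℝ := (C + hT.toFinset.card + 1) / m with hM
  have hM0 : 0 ≤ M := by positivity
  have hs1 : (1 : ℝ) < 1 + Real.exp (-M) := by
    have := Real.exp_pos (-M)
    linarith
  have hs2 : 1 + Real.exp (-M) ≤ (2 : ℝ) := by
    have : Real.exp (-M) ≤ 1 := Real.exp_le_one_iff.2 (by linarith)
    linarith
  have h1 := (hC _ hs1 hs2).2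
  have h2 := hb _ hs1 hs2
  have h3 : Real.log (1 / (1 + Real.exp (-M) - 1)) = M := by
    rw [add_sub_cancel_left, one_div, ← Real.exp_neg, neg_neg, Real.log_exp]
  rw [h3] at h1
  have h4 : m * M = C + hT.toFinset.card + 1 := by
    rw [hM]
    field_simp
  rw [h4] at h1
  have h5 := (abs_le.1 h1).1
  linarith

/-- the sieve -/
lemma frb_sieve {k : Type} [Field k] [NumberField k] (N : ℕ) (a : Pl k → ℕ)
    (h : ∀ D : ℕ, D ∣ N → HasMean (frb_ind {v : Pl k | D ∣ a v}) (1 / (D : ℝ)))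
    (Λ : Finset ℕ) : (∀ q ∈ Λ, q.Prime) → ∀ D : ℕ, (∀ q ∈ Λ, Nat.Coprime D q) →
      D * ∏ q ∈ Λ, q ∣ N →
      HasMean (frb_ind {v : Pl k | D ∣ a v ∧ ∀ q ∈ Λ, ¬ q ∣ a v})
        ((1 / (D : ℝ)) * ∏ q ∈ Λ, (1 - 1 / (q : ℝ))) := by
  induction Λ using Finset.induction_on with
  | empty =>
    intro _ D _ hD
    rw [Finset.prod_empty, mul_one] at hD ⊢
    have h1 := h D hD
    have e : {v : Pl k | D ∣ a v ∧ ∀ q ∈ (∅ : Finset ℕ), ¬ q ∣ a v} = {v : Pl k | D ∣ a v} := by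
      ext v
      simp
    rw [e]
    exact h1
  | insert q Λ hq ih =>
    intro hpr D hcop hD
    rw [Finset.prod_insert hq] at hD ⊢
    have hqp : q.Prime := hpr q (Finset.mem_insert_self _ _)
    have hDq : Nat.Coprime D q := hcop q (Finset.mem_insert_self _ _)
    have hpr' : ∀ q ∈ Λ, q.Prime := fun q' hq' => hpr q' (Finset.mem_insert_of_mem hq')
    have i1 := ih hpr' D (fun q' hq' => hcop q' (Finset.mem_insert_of_mem hq'))
      ((mul_dvd_mul_left D (dvd_mul_left _ _)).trans hD)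
    have i2 := ih hpr' (D * q) (fun q' hq' => by
      refine Nat.Coprime.mul_left (hcop q' (Finset.mem_insert_of_mem hq')) ?_
      rw [Nat.coprime_primes hqp (hpr' q' hq')]
      rintro rfl
      exact hq hq') (by rw [mul_assoc]; exact hD)
    have i3 := sie_add i1 (sie_neg i2)
    have e1 : (1 / (D : ℝ)) * ∏ q ∈ Λ, (1 - 1 / (q : ℝ)) +
        -((1 / ((D * q : ℕ) : ℝ)) * ∏ q ∈ Λ, (1 - 1 / (q : ℝ))) =
        1 / (D : ℝ) * ((1 - 1 / (q : ℝ)) * ∏ q ∈ Λ, (1 - 1 / (q : ℝ))) := by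
      rw [Nat.cast_mul, one_div, one_div, one_div, mul_inv]
      ring
    rw [e1] at i3
    have e2 : (fun v : Pl k => frb_ind {v : Pl k | D ∣ a v ∧ ∀ q ∈ Λ, ¬ q ∣ a v} v +
        -frb_ind {v : Pl k | D * q ∣ a v ∧ ∀ q ∈ Λ, ¬ q ∣ a v} v) =
        frb_ind {v : Pl k | D ∣ a v ∧ ∀ q' ∈ insert q Λ, ¬ q' ∣ a v} := by
      funext v
      unfold frb_ind
      simp only [Set.mem_ofPred_eq, Finset.forall_mem_insert]
      have h3 : D * q ∣ a v ↔ D ∣ a v ∧ q ∣ a v :=
        ⟨fun h => ⟨(dvd_mul_right _ _).trans h, (dvd_mul_left _ _).trans h⟩,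
          fun h => Nat.Coprime.mul_dvd_of_dvd_of_dvd hDq h.1 h.2⟩
      by_cases c1 : D ∣ a v <;> by_cases c2 : q ∣ a v <;>
        by_cases c3 : (∀ q ∈ Λ, ¬ q ∣ a v) <;> simp [h3, c1, c2, c3]
    rw [e2] at i3
    exact i3

section core

variable {K Ω : Type} [Field K] [NumberField K] [Field Ω] [Algebra K Ω] [IsGalois K Ω]

omit [NumberField K] in
lemma frb_index (Y : Subgroup (Ω ≃ₐ[K] Ω)) [Y.Normal] (hY : IsOpen (Y : Set (Ω ≃ₐ[K] Ω))) :
    Y.index ≠ 0 := by
  let H : ClosedSubgroup (Ω ≃ₐ[K] Ω) := ⟨Y, Y.isClosed_of_isOpen hY⟩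
  have hfix : (IntermediateField.fixedField Y).fixingSubgroup = Y :=
    InfiniteGalois.fixingSubgroup_fixedField H
  obtain ⟨hfd, hgal⟩ := (InfiniteGalois.isOpen_and_normal_iff_finite_and_isGalois
    (IntermediateField.fixedField Y)).1 ⟨by rw [hfix]; exact hY, by rw [hfix]; infer_instance⟩
  have h1 : Module.finrank K (IntermediateField.fixedField Y) =
      (IntermediateField.fixedField Y).fixingSubgroup.index :=
    IntermediateField.finrank_eq_fixingSubgroup_index Ω _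
  rw [hfix] at h1
  rw [← h1]
  exact (Module.finrank_pos (R := K) (M := IntermediateField.fixedField Y)).ne'

/-- The cyclic case of the density theorem of Chebotarev, up to powers. -/
theorem frb_core (hSPL : ST_SPL) (Y : Subgroup (Ω ≃ₐ[K] Ω)) [Y.Normal]
    (hY : IsOpen (Y : Set (Ω ≃ₐ[K] Ω))) (g : Ω ≃ₐ[K] Ω) (hg : ∀ x, ∃ n : ℤ, g ^ n * x ∈ Y)
    (T : Set (Pl K)) (hT : T.Finite) :
    ∃ v ∉ T, ∃ σ : Ω ≃ₐ[K] Ω, IsFrobK v.asIdeal σ ∧ ∃ j : ℕ, 1 ≤ j ∧ g⁻¹ * σ ^ j ∈ Y := by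
  choose σ hσ using fun v : Pl K => wc_exists_frob (K := K) (Ω := Ω) v.asIdeal v.isPrime v.ne_bot
  have hidx := frb_index Y hY
  set Q := (Ω ≃ₐ[K] Ω) ⧸ Y with hQ
  have hN0 : Nat.card Q ≠ 0 := hidx
  have hfin : Finite Q := Nat.finite_of_card_ne_zero hN0
  have hcyc : IsCyclic Q := by
    refine ⟨⟨QuotientGroup.mk g, fun x => ?_⟩⟩
    obtain ⟨x, rfl⟩ := QuotientGroup.mk_surjective x
    obtain ⟨n, hn⟩ := hg x
    refine Subgroup.mem_zpowers_iff.2 ⟨-n, ?_⟩
    rw [← QuotientGroup.mk_zpow, QuotientGroup.eq, zpow_neg, inv_inv]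
    exact hn
  set N := Nat.card Q with hN
  have hNe : NeZero N := ⟨hN0⟩
  let e : Multiplicative (ZMod N) ≃* Q := zmodCyclicMulEquiv hcyc
  let φ : (Ω ≃ₐ[K] Ω) →* Multiplicative (ZMod N) := e.symm.toMonoidHom.comp (QuotientGroup.mk' Y)
  have hφs : Function.Surjective φ := e.symm.surjective.comp (QuotientGroup.mk'_surjective Y)
  have hφk : ∀ x, φ x = 1 ↔ x ∈ Y := by
    intro x
    have h1 : φ x = e.symm (QuotientGroup.mk x) := rfl
    rw [h1, map_eq_one_iff e.symm e.symm.injective, QuotientGroup.eq_one_iff]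
  let a : Pl K → ℕ := fun v => (Multiplicative.toAdd (φ (σ v))).val
  have hD : ∀ D : ℕ, D ∣ N → HasMean (frb_ind {v : Pl K | D ∣ a v}) (1 / (D : ℝ)) := by
    intro D hD
    let ψ : (Ω ≃ₐ[K] Ω) →* Multiplicative (ZMod D) :=
      (AddMonoidHom.toMultiplicative (ZMod.castHom hD (ZMod D)).toAddMonoidHom).comp φ
    have hψs : Function.Surjective ψ := by
      intro y
      obtain ⟨z, hz⟩ := ZMod.castHom_surjective hD (Multiplicative.toAdd y)
      obtain ⟨x, hx⟩ := hφs (Multiplicative.ofAdd z)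
      refine ⟨x, ?_⟩
      change Multiplicative.ofAdd (ZMod.castHom hD (ZMod D) (Multiplicative.toAdd (φ x))) = y
      rw [hx, toAdd_ofAdd, hz, ofAdd_toAdd]
    have hψi : ψ.ker.index = D := by
      rw [Subgroup.index_ker, MonoidHom.range_eq_top.2 hψs, Subgroup.card_top]
      exact (Nat.card_congr Multiplicative.toAdd).trans (Nat.card_zmod D)
    have hψo : IsOpen (ψ.ker : Set (Ω ≃ₐ[K] Ω)) := by
      refine Subgroup.isOpen_mono (fun x hx => ?_) hY
      rw [MonoidHom.mem_ker]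
      have h1 := (hφk x).2 hx
      change Multiplicative.ofAdd (ZMod.castHom hD (ZMod D) (Multiplicative.toAdd (φ x))) = 1
      rw [h1, toAdd_one, map_zero, ofAdd_zero]
    have h2 := frb_spl hSPL ψ.ker hψo σ hσ
    rw [hψi] at h2
    have h3 : {v : Pl K | σ v ∈ ψ.ker} = {v : Pl K | D ∣ a v} := by
      ext v
      simp only [Set.mem_ofPred_eq, MonoidHom.mem_ker]
      change Multiplicative.ofAdd (ZMod.castHom hD (ZMod D) (Multiplicative.toAdd (φ (σ v)))) = 1 ↔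
        D ∣ (Multiplicative.toAdd (φ (σ v))).val
      rw [ofAdd_eq_one, ZMod.castHom_apply, ← ZMod.natCast_val, ZMod.natCast_eq_zero_iff]
    rw [h3] at h2
    exact h2
  have hS := frb_sieve N a hD N.primeFactors (fun q hq => Nat.prime_of_mem_primeFactors hq) 1
    (fun q _ => Nat.coprime_one_left q) (by rw [one_mul]; exact Nat.prod_primeFactors_dvd N)
  have hpos : 0 < (1 / ((1 : ℕ) : ℝ)) * ∏ q ∈ N.primeFactors, (1 - 1 / (q : ℝ)) := by
    rw [Nat.cast_one, div_one, one_mul]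
    refine Finset.prod_pos fun q hq => ?_
    have h1 : (1 : ℝ) < q := by exact_mod_cast (Nat.prime_of_mem_primeFactors hq).one_lt
    have h2 : 1 / (q : ℝ) < 1 := by
      rw [div_lt_one (by linarith)]
      exact h1
    linarith
  obtain ⟨v, hv, hvT⟩ := frb_exists _ _ hpos hS T hT
  have hcop : Nat.Coprime (a v) N := by
    by_contra hc
    obtain ⟨p, hp, hp1, hp2⟩ := Nat.Prime.not_coprime_iff_dvd.1 hc
    exact hv.2 p (Nat.mem_primeFactors.2 ⟨hp, hp2, hN0⟩) hp1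
  let u : (ZMod N)ˣ := ZMod.unitOfCoprime (a v) hcop
  let b : ZMod N := Multiplicative.toAdd (φ g) * ((u⁻¹ : (ZMod N)ˣ) : ZMod N)
  refine ⟨v, hvT, σ v, hσ v, b.val + N, by omega, ?_⟩
  rw [← hφk, map_mul, map_inv, map_pow]
  have h1 : Multiplicative.toAdd (φ (σ v)) = (u : ZMod N) := by
    rw [ZMod.coe_unitOfCoprime]
    exact (ZMod.natCast_zmod_val _).symm
  have h2 : (φ (σ v)) ^ (b.val + N) = φ g := by
    apply Multiplicative.toAdd.injective
    rw [toAdd_pow, h1, nsmul_eq_mul, Nat.cast_add, ZMod.natCast_self, add_zero,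
      ZMod.natCast_zmod_val, mul_assoc, Units.inv_mul, mul_one]
  rw [h2, inv_mul_cancel]

end core

/-- powers -/
lemma frb_pow {F Ω : Type} [Field F] [Field Ω] [Algebra F Ω] (𝔓 : Ideal (integralClosure ℤ Ω))
    (q : ℕ) (σ : Ω ≃ₐ[F] Ω) (h : CongPow 𝔓 q σ) (j : ℕ) :
    CongPow 𝔓 (q ^ j) (σ ^ j : Ω ≃ₐ[F] Ω) := by
  induction j with
  | zero =>
    intro x y hxy
    rw [pow_zero, pow_one]
    have h1 : y = x := Subtype.ext (by rw [hxy, pow_zero, AlgEquiv.one_apply])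
    rw [h1, sub_self]
    exact 𝔓.zero_mem
  | succ j ih =>
    intro x y hxy
    have hz : IsIntegral ℤ ((σ ^ j : Ω ≃ₐ[F] Ω) (x : Ω)) :=
      x.2.map ((σ ^ j : Ω ≃ₐ[F] Ω).restrictScalars ℤ)
    let z : integralClosure ℤ Ω := ⟨(σ ^ j : Ω ≃ₐ[F] Ω) (x : Ω), hz⟩
    have h1 := ih x z rfl
    have h2 := h z y (by rw [hxy, pow_succ', AlgEquiv.mul_apply])
    have h3 : z ^ q - (x ^ q ^ j) ^ q ∈ 𝔓 := 𝔓.mem_of_dvd (sub_dvd_pow_sub_pow _ _ q) h1
    have h4 := 𝔓.add_mem h2 h3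
    rw [sub_add_sub_cancel, ← pow_mul, ← pow_succ] at h4
    exact h4

lemma frb_cont {F Ω : Type} [Field F] [Field Ω] [Algebra F Ω] [IsGalois F Ω]
    (K : IntermediateField F Ω) (r : (Ω ≃ₐ[K] Ω) →* (Ω ≃ₐ[F] Ω))
    (hr : ∀ (σ : Ω ≃ₐ[K] Ω) x, r σ x = σ x) : Continuous r := by
  apply continuous_of_continuousAt_one r
  intro s hs
  rw [map_one] at hs
  obtain ⟨E, hE, hEs⟩ := (krullTopology_mem_nhds_one_iff F Ω s).1 hs
  rw [Filter.mem_map]
  let b := Module.finBasis F E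
  let E' : IntermediateField K Ω := IntermediateField.adjoin K (Set.range fun i => ((b i : E) : Ω))
  have hE' : FiniteDimensional K E' := by
    have : Algebra.IsAlgebraic K Ω := Algebra.IsAlgebraic.tower_top (K := F) K
    apply IntermediateField.finiteDimensional_adjoin
    intro x _
    exact (Algebra.IsAlgebraic.isAlgebraic x).isIntegral
  refine (krullTopology_mem_nhds_one_iff K Ω _).2 ⟨E', hE', ?_⟩
  intro σ hσ
  apply hEs
  change r σ ∈ E.fixingSubgroup
  rw [IntermediateField.mem_fixingSubgroup_iff]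
  intro x hx
  rw [hr]
  have hσ' : ∀ i, σ ((b i : E) : Ω) = ((b i : E) : Ω) := by
    intro i
    exact (IntermediateField.mem_fixingSubgroup_iff E' σ).1 hσ _
      (IntermediateField.subset_adjoin K _ ⟨i, rfl⟩)
  have h1 : x = ∑ i, (b.repr ⟨x, hx⟩ i) • ((b i : E) : Ω) := by
    have h2 := congrArg E.val (b.sum_repr ⟨x, hx⟩)
    rw [map_sum] at h2
    simp only [map_smul] at h2
    exact h2.symm
  rw [h1, ← hr, map_sum]
  refine Finset.sum_congr rfl fun i _ => ?_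
  rw [map_smul, hr, hσ']

lemma frb_T {K : Type} [Field K] [NumberField K] (S : Finset ℕ) :
    {v : Pl K | ∃ p ∈ S, p.Prime ∧ (p : 𝓞 K) ∈ v.asIdeal}.Finite := by
  have h : ∀ p ∈ S, {v : Pl K | p.Prime ∧ (p : 𝓞 K) ∈ v.asIdeal}.Finite := by
    intro p _
    by_cases hp : p.Prime
    · have hI : Ideal.span {(p : 𝓞 K)} ≠ 0 := by
        rw [Ideal.zero_eq_bot, Ne, Ideal.span_singleton_eq_bot]
        exact_mod_cast hp.ne_zero
      refine (Ideal.finite_factors hI).subset fun v hv => ?_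
      change v.asIdeal ∣ _
      rw [Ideal.dvd_span_singleton]
      exact hv.2
    · refine Set.finite_empty.subset fun v hv => hp hv.1
  refine (S.finite_toSet.biUnion h).subset ?_
  rintro v ⟨p, hp, h1, h2⟩
  exact Set.mem_biUnion hp ⟨h1, h2⟩

/-- the residue characteristic -/
lemma frb_p {K : Type} [Field K] [NumberField K] (v : Pl K) :
    ∃ (p n : ℕ), p.Prime ∧ 1 ≤ n ∧ Ideal.absNorm v.asIdeal = p ^ n ∧ (p : 𝓞 K) ∈ v.asIdeal := by
  have hm : v.asIdeal.IsMaximal := v.isMaximal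
  have hfin : Finite (𝓞 K ⧸ v.asIdeal) := (Ideal.absNorm_ne_zero_iff v.asIdeal).1
    (mt Ideal.absNorm_eq_zero_iff.1 v.ne_bot)
  let := Ideal.Quotient.field v.asIdeal
  let := Fintype.ofFinite (𝓞 K ⧸ v.asIdeal)
  obtain ⟨p, _, n, hp, hn⟩ := FiniteField.card' (𝓞 K ⧸ v.asIdeal)
  have h2 : Ideal.absNorm v.asIdeal = p ^ (n : ℕ) := by
    rw [← hn, ← Nat.card_eq_fintype_card]
    rfl
  refine ⟨p, n, hp, n.2, h2, ?_⟩
  have h3 := Ideal.absNorm_mem v.asIdeal
  rw [h2, Nat.cast_pow] at h3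
  exact v.isPrime.mem_of_pow_mem _ h3

theorem frb_main (hSPL : ST_SPL) : ST_FRB := by
  intro F _ _ Y hYn hY S g
  let C : Subgroup (Gal F) := Subgroup.zpowers g ⊔ Y
  have hC : IsOpen (C : Set (Gal F)) := Subgroup.isOpen_mono le_sup_right hY
  let E : IntermediateField F (AlgebraicClosure F) := IntermediateField.fixedField C
  have hfix : E.fixingSubgroup = C :=
    InfiniteGalois.fixingSubgroup_fixedField ⟨C, C.isClosed_of_isOpen hC⟩
  have hfd : FiniteDimensional F E := (InfiniteGalois.isOpen_iff_finite E).1 (by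
    rw [hfix]
    exact hC)
  have hNF : NumberField E := NumberField.of_module_finite F E
  have hgal : IsGalois E (AlgebraicClosure F) := IsGalois.tower_top_intermediateField E
  let r : (AlgebraicClosure F ≃ₐ[E] AlgebraicClosure F) →* Gal F :=
    E.fixingSubgroup.subtype.comp E.fixingSubgroupEquiv.symm.toMonoidHom
  have hr : ∀ (σ : AlgebraicClosure F ≃ₐ[E] AlgebraicClosure F) x, r σ x = σ x := fun _ _ => rfl
  have hrc : Continuous r := frb_cont E r hr
  have hrC : ∀ σ, r σ ∈ C := by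
    intro σ
    rw [← hfix]
    exact (E.fixingSubgroupEquiv.symm σ).2
  have hgC : g ∈ E.fixingSubgroup := by
    rw [hfix]
    exact Subgroup.mem_sup_left (Subgroup.mem_zpowers g)
  let g' : AlgebraicClosure F ≃ₐ[E] AlgebraicClosure F := E.fixingSubgroupEquiv ⟨g, hgC⟩
  have hg' : r g' = g := by
    change ((E.fixingSubgroupEquiv.symm (E.fixingSubgroupEquiv ⟨g, hgC⟩) : E.fixingSubgroup) :
      Gal F) = g
    rw [MulEquiv.symm_apply_apply]
  have hn : (Y.comap r).Normal := hYn.comap r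
  obtain ⟨v, hvT, σ, ⟨𝔓, h𝔓, h1, h2⟩, j, hj, hσ⟩ := frb_core hSPL (Y.comap r)
    (hY.preimage hrc) g' (fun x => by
      have hx := hrC x
      obtain ⟨y, hy, z, hz, hyz⟩ := Subgroup.mem_sup_of_normal_right.1 hx
      obtain ⟨n, hn⟩ := Subgroup.mem_zpowers_iff.1 hy
      refine ⟨-n, ?_⟩
      rw [Subgroup.mem_comap, map_mul, map_zpow, hg', ← hyz, ← hn, zpow_neg, inv_mul_cancel_left]
      exact hz) {v : Pl E | ∃ p ∈ S, p.Prime ∧ (p : 𝓞 E) ∈ v.asIdeal} (frb_T S)
  obtain ⟨p, n, hp, hn1, hpn, hpv⟩ := frb_p v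
  refine ⟨p, 𝔓, n * j, r σ ^ j, hp, fun hpS => hvT ⟨p, hpS, hp, hpv⟩, ⟨h𝔓, ?_⟩,
    Nat.mul_pos hn1 hj, ?_, ?_⟩
  · refine (h1 (p : 𝓞 E) (p : integralClosure ℤ (AlgebraicClosure F)) ?_).1 hpv
    simp
  · have h3 : CongPow 𝔓 (p ^ n) (r σ) := by
      intro x y hxy
      rw [← hpn]
      exact h2 x y hxy
    have h4 := frb_pow 𝔓 (p ^ n) (r σ) h3 j
    rw [← pow_mul] at h4
    exact h4
  · have h5 : r (g'⁻¹ * σ ^ j) ∈ Y := hσ
    rw [map_mul, map_inv, map_pow, hg'] at h5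
    exact h5

/-- FRB -/
theorem st_FRB : ST_FRB := frb_main (st_SPL st_PZ)

end MU
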