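import Pool.Agent.Helper35.ZL.SPL
import Pool.Agent.Helper94.ZL.PZ
import Pool.Agent.Helper81.AbMot.Spl
import Pool.Agent.Helper74.ZL.MON

/-!
# FRB, part 1: density of the places whose Frobenius element is in a normal subgroup
-/

set_option autoImplicit false

open scoped Classical Pointwise

namespace MU

open IsDedekindDomain NumberField Pool.Agent.Helper13.ZL AbMot

/-- the indicator function -/
noncomputable def frb_ind {k : Type} [Field k] [NumberField k] (V : Set (Pl k)) : Pl k → ℝ :=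
  fun v : Pl k => if v ∈ V then (1 : ℝ) else 0

section finite

variable {K L : Type} [Field K] [NumberField K] [Field L] [NumberField L] [Algebra K L]
  [IsGalois K L]

variable (K L) in
/-- the places which contain the norm of the different -/
def frb_B : Set (Pl K) :=
  {v | ((Ideal.absNorm (differentIdeal (𝓞 K) (𝓞 L)) : ℕ) : 𝓞 K) ∈ v.asIdeal}

omit [IsGalois K L] in
lemma frb_B_finite : (frb_B K L).Finite := by
  have hD0 : differentIdeal (𝓞 K) (𝓞 L) ≠ ⊥ := differentIdeal_ne_bot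
  have hd : ((Ideal.absNorm (differentIdeal (𝓞 K) (𝓞 L)) : ℕ) : 𝓞 K) ≠ 0 := by
    rw [Nat.cast_ne_zero]
    exact mt Ideal.absNorm_eq_zero_iff.1 hD0
  have hI : Ideal.span {((Ideal.absNorm (differentIdeal (𝓞 K) (𝓞 L)) : ℕ) : 𝓞 K)} ≠ 0 := by
    rw [Ideal.zero_eq_bot, Ne, Ideal.span_singleton_eq_bot]
    exact hd
  refine (Ideal.finite_factors hI).subset fun v hv => ?_
  change v.asIdeal ∣ _
  rw [Ideal.dvd_span_singleton]
  exact hv

lemma frb_ram (v : Pl K) (hv : v ∉ frb_B K L) (Q : Ideal (𝓞 L)) (hQ : Q.IsPrime)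
    (hl : Q.LiesOver v.asIdeal) : v.asIdeal.ramificationIdxIn (𝓞 L) = 1 := by
  have hG : IsGaloisGroup (L ≃ₐ[K] L) (𝓞 K) (𝓞 L) :=
    IsGaloisGroup.of_isFractionRing (L ≃ₐ[K] L) (𝓞 K) (𝓞 L) K L
  have hvp := v.isPrime
  have hvm : v.asIdeal.IsMaximal := v.isMaximal
  have : Q.IsMaximal := Ideal.IsMaximal.of_liesOver_isMaximal Q v.asIdeal
  have hndvd : ¬ Q ∣ differentIdeal (𝓞 K) (𝓞 L) := by
    intro h
    apply hv
    have h1 : differentIdeal (𝓞 K) (𝓞 L) ≤ Q := Ideal.le_of_dvd h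
    have h2 := h1 (Ideal.absNorm_mem (differentIdeal (𝓞 K) (𝓞 L)))
    change ((Ideal.absNorm (differentIdeal (𝓞 K) (𝓞 L)) : ℕ) : 𝓞 K) ∈ v.asIdeal
    rw [hl.over, Ideal.under_def, Ideal.mem_comap, map_natCast]
    exact h2
  have hunr := not_dvd_differentIdeal_iff.1 hndvd
  rw [Ideal.ramificationIdxIn_eq_ramificationIdx v.asIdeal Q (L ≃ₐ[K] L)]
  exact Ideal.ramificationIdx_eq_one_of_isUnramifiedAt

lemma frb_f (v : Pl K) (Q : Ideal (𝓞 L)) (hQ : Q.IsPrime)
    (hl : Q.LiesOver v.asIdeal) (hN : Ideal.absNorm Q = Ideal.absNorm v.asIdeal) :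
    v.asIdeal.inertiaDegIn (𝓞 L) = 1 := by
  have hG : IsGaloisGroup (L ≃ₐ[K] L) (𝓞 K) (𝓞 L) :=
    IsGaloisGroup.of_isFractionRing (L ≃ₐ[K] L) (𝓞 K) (𝓞 L) K L
  have hvp := v.isPrime
  have h1 := Ideal.absNorm_pow_inertiaDeg v.asIdeal Q
  rw [hN] at h1
  rw [Ideal.inertiaDegIn_eq_inertiaDeg v.asIdeal Q (L ≃ₐ[K] L)]
  have hNP : 1 < Ideal.absNorm v.asIdeal := spl_q_ge_two v
  have h2 : Ideal.absNorm v.asIdeal ^ (Q.inertiaDeg (𝓞 K)) = Ideal.absNorm v.asIdeal ^ 1 := by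
    rw [pow_one]
    exact h1
  exact Nat.pow_right_injective hNP h2

/-- A decomposition group of order one. -/
lemma frb_stab (v : Pl K) (hv : v ∉ frb_B K L) (Q : Ideal (𝓞 L)) (hQ : Q.IsPrime)
    (hl : Q.LiesOver v.asIdeal) (hN : Ideal.absNorm Q = Ideal.absNorm v.asIdeal) (P : Ideal (𝓞 L))
    (hP : P.IsPrime) (hPl : P.LiesOver v.asIdeal) (τ : L ≃ₐ[K] L) (hτ : τ • P = P) : τ = 1 := by
  have hG : IsGaloisGroup (L ≃ₐ[K] L) (𝓞 K) (𝓞 L) :=
    IsGaloisGroup.of_isFractionRing (L ≃ₐ[K] L) (𝓞 K) (𝓞 L) K L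
  have hvp := v.isPrime
  have h1 := Ideal.card_stabilizer_eq (G := (L ≃ₐ[K] L)) v.asIdeal P
  rw [frb_ram v hv Q hQ hl, frb_f v Q hQ hl hN, mul_one, Nat.card_eq_one_iff_unique] at h1
  have h2 : (⟨τ, hτ⟩ : MulAction.stabilizer (L ≃ₐ[K] L) P) = 1 := h1.1.elim _ _
  exact congrArg Subtype.val h2

lemma frb_card (v : Pl K) (Q : Ideal (𝓞 L)) (hQ : Q.IsPrime)
    (hl : Q.LiesOver v.asIdeal) (hf : v.asIdeal.inertiaDegIn (𝓞 L) = 1) :
    Ideal.absNorm Q = Ideal.absNorm v.asIdeal := by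
  have hG : IsGaloisGroup (L ≃ₐ[K] L) (𝓞 K) (𝓞 L) :=
    IsGaloisGroup.of_isFractionRing (L ≃ₐ[K] L) (𝓞 K) (𝓞 L) K L
  have hvp := v.isPrime
  have h1 := Ideal.absNorm_pow_inertiaDeg v.asIdeal Q
  rw [← Ideal.inertiaDegIn_eq_inertiaDeg v.asIdeal Q (L ≃ₐ[K] L), hf, pow_one] at h1
  exact h1.symm

/-- Fermat's little theorem in the residue field -/
lemma frb_fermat (Q : Ideal (𝓞 L)) (hQ : Q.IsPrime) (hQ0 : Q ≠ ⊥) (x : 𝓞 L) :
    x ^ Ideal.absNorm Q - x ∈ Q := by
  have hm : Q.IsMaximal := hQ.isMaximal hQ0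
  have hfin : Finite (𝓞 L ⧸ Q) :=
    (Ideal.absNorm_ne_zero_iff Q).1 (mt Ideal.absNorm_eq_zero_iff.1 hQ0)
  let := Ideal.Quotient.field Q
  let := Fintype.ofFinite (𝓞 L ⧸ Q)
  have h1 : (Ideal.Quotient.mk Q x) ^ Fintype.card (𝓞 L ⧸ Q) = Ideal.Quotient.mk Q x :=
    FiniteField.pow_card _
  rw [← Ideal.Quotient.eq, map_pow]
  have h2 : Ideal.absNorm Q = Fintype.card (𝓞 L ⧸ Q) := by
    rw [← Nat.card_eq_fintype_card]
    rfl
  rw [h2]
  exact h1

omit [NumberField K] [NumberField L] [IsGalois K L] in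
/-- An automorphism which maps a prime ideal into itself stabilises it. -/
lemma frb_smul (P : Ideal (𝓞 L)) (hP : P.IsMaximal) (τ : L ≃ₐ[K] L)
    (h : ∀ x : 𝓞 L, x ∈ P → τ • x ∈ P) : τ • P = P := by
  have h1 : P.comap (MulSemiringAction.toRingHom (L ≃ₐ[K] L) (𝓞 L) τ) = P := by
    symm
    refine hP.eq_of_le ?_ fun x hx => h x hx
    have := Ideal.comap_isPrime (MulSemiringAction.toRingHom (L ≃ₐ[K] L) (𝓞 L) τ) P
    exact this.ne_top
  have h2 : ∀ x : 𝓞 L, τ • x ∈ P ↔ x ∈ P := fun x => by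
    constructor
    · intro hx
      rw [← h1]
      exact hx
    · exact h x
  ext y
  rw [Ideal.mem_pointwise_smul_iff_inv_smul_mem, ← h2, smul_inv_smul]

end finite

section inf

variable {K Ω : Type} [Field K] [NumberField K] [Field Ω] [Algebra K Ω] [IsGalois K Ω]

/-- the density of the places with Frobenius element in a normal subgroup -/
theorem frb_spl (hSPL : ST_SPL) (Z : Subgroup (Ω ≃ₐ[K] Ω)) [Z.Normal]
    (hZ : IsOpen (Z : Set (Ω ≃ₐ[K] Ω))) (σ : Pl K → (Ω ≃ₐ[K] Ω))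
    (hσ : ∀ v, IsFrobK v.asIdeal (σ v)) :
    HasMean (frb_ind {v : Pl K | σ v ∈ Z}) (1 / (Z.index : ℝ)) := by
  let H : ClosedSubgroup (Ω ≃ₐ[K] Ω) := ⟨Z, Z.isClosed_of_isOpen hZ⟩
  have hfix : (IntermediateField.fixedField Z).fixingSubgroup = Z :=
    InfiniteGalois.fixingSubgroup_fixedField H
  set L := IntermediateField.fixedField Z with hL
  obtain ⟨hfd, hgal⟩ := (InfiniteGalois.isOpen_and_normal_iff_finite_and_isGalois L).1
    ⟨by rw [hfix]; exact hZ, by rw [hfix]; infer_instance⟩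
  have hNF : NumberField L := NumberField.of_module_finite K L
  have hidx : Module.finrank K L = Z.index := by
    rw [IntermediateField.finrank_eq_fixingSubgroup_index, hfix]
  rw [← hidx]
  refine hSPL K L {v | σ v ∈ Z} (frb_B K L) frb_B_finite ?_ ?_
  · intro v hv hvB P hP τ hτ
    have hPl : P.asIdeal.LiesOver v.asIdeal := by
      rw [Ideal.liesOver_iff]
      ext x
      exact (hP x).symm
    have hv' : σ v ∈ L.fixingSubgroup := by
      rw [hfix]
      exact hv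
    obtain ⟨Q, hQ, hQP, hN⟩ := wc_degree_one L v.asIdeal v.isPrime v.ne_bot (σ v) (hσ v)
      (fun x hx => (IntermediateField.mem_fixingSubgroup_iff L (σ v)).1 hv' x hx)
    have hQl : Q.LiesOver v.asIdeal := ⟨hQP.symm⟩
    refine frb_stab v hvB Q hQ hQl hN P.asIdeal P.isPrime hPl τ ?_
    refine frb_smul P.asIdeal P.isMaximal τ fun x hx => ?_
    have h1 : P.valuation L ((x : 𝓞 L) : L) < 1 :=
      (HeightOneSpectrum.valuation_lt_one_iff_mem P x).2 hx
    have h2 := mon_tau P τ hτ _ h1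
    exact (HeightOneSpectrum.valuation_lt_one_iff_mem P (τ • x)).1 h2
  · intro v hvB P hP hq
    have hPl : P.asIdeal.LiesOver v.asIdeal := by
      rw [Ideal.liesOver_iff]
      ext x
      exact (hP x).symm
    have hf := frb_f v P.asIdeal P.isPrime hPl hq
    obtain ⟨𝔓, h𝔓, h1, h2⟩ := hσ v
    let f : 𝓞 L →+* integralClosure ℤ Ω :=
      { toFun := fun x => ⟨((x : L) : Ω), by
          have := x.2
          exact (isIntegral_algebraMap_iff (algebraMap L Ω).injective).2 this⟩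
        map_one' := rfl
        map_mul' := fun _ _ => rfl
        map_zero' := rfl
        map_add' := fun _ _ => rfl }
    have hfv : ∀ x : 𝓞 L, (f x : Ω) = ((x : L) : Ω) := fun _ => rfl
    have hQprime : (𝔓.comap f).IsPrime := Ideal.comap_isPrime f 𝔓
    have hQP : (𝔓.comap f).comap (algebraMap (𝓞 K) (𝓞 L)) = v.asIdeal := by
      ext x
      rw [Ideal.mem_comap, Ideal.mem_comap]
      exact (h1 x (f (algebraMap (𝓞 K) (𝓞 L) x)) rfl).symm
    have hlies : (𝔓.comap f).LiesOver v.asIdeal := ⟨hQP.symm⟩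
    have hvm := v.isMaximal
    have hQm : (𝔓.comap f).IsMaximal := Ideal.IsMaximal.of_liesOver_isMaximal _ v.asIdeal
    have hN := frb_card v (𝔓.comap f) hQprime hlies hf
    have hQ0 : 𝔓.comap f ≠ ⊥ := Ideal.ne_bot_of_liesOver_of_ne_bot v.ne_bot _
    have hmem : ∀ x : 𝓞 L, ((σ v).restrictNormal L) • x - x ∈ 𝔓.comap f := by
      intro x
      have h3 := frb_fermat (𝔓.comap f) hQprime hQ0 x
      have h4 : ((σ v).restrictNormal L) • x - x ^ Ideal.absNorm v.asIdeal ∈ 𝔓.comap f := by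
        rw [Ideal.mem_comap, map_sub, map_pow]
        refine h2 (f x) (f (((σ v).restrictNormal L) • x)) ?_
        exact AlgEquiv.restrictNormal_commutes (σ v) L (x : L)
      rw [← hN] at h4
      have h5 := (𝔓.comap f).add_mem h4 h3
      rw [sub_add_sub_cancel] at h5
      exact h5
    have hτ : (σ v).restrictNormal L = 1 := by
      refine frb_stab v hvB (𝔓.comap f) hQprime hlies hN (𝔓.comap f) hQprime hlies _ ?_
      refine frb_smul _ hQm _ fun x hx => ?_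
      have h6 := (𝔓.comap f).add_mem (hmem x) hx
      rw [sub_add_cancel] at h6
      exact h6
    change σ v ∈ Z
    rw [← hfix, IntermediateField.mem_fixingSubgroup_iff]
    intro x hx
    have h7 := AlgEquiv.restrictNormal_commutes (σ v) L ⟨x, hx⟩
    rw [hτ] at h7
    exact h7.symm

end inf

end MU
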